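import Mathlib

/-!
# Polygonal curves with infinitely many corners

`path p` is the polygonal curve through the points `p k`, `k` an integer.
-/

set_option autoImplicit false

namespace Pool.Agent.V11157.Polyline

/-- The Euclidean plane. -/
abbrev P : Type := EuclideanSpace ℝ (Fin 2)

/-- The polygonal curve through the points `p k`. -/
noncomputable def path (p : ℤ → P) (t : ℝ) : P :=
  p ⌊t⌋ + Int.fract t • (p (⌊t⌋ + 1) - p ⌊t⌋)

theorem path_eq (p : ℤ → P) (k : ℤ) (t : ℝ) (h0 : (k : ℝ) ≤ t) (h1 : t ≤ k + 1) :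
    path p t = p k + (t - k) • (p (k + 1) - p k) := by
  rcases h1.lt_or_eq with h | h
  · have e : ⌊t⌋ = k := Int.floor_eq_iff.2 ⟨h0, h⟩
    rw [path, e, Int.fract, e]
  · have e : ⌊t⌋ = k + 1 := Int.floor_eq_iff.2 ⟨by rw [h]; push_cast; linarith,
      by rw [h]; push_cast; linarith⟩
    have e2 : Int.fract t = 0 := by
      rw [Int.fract, e, h]; push_cast; ring
    have e3 : t - k = 1 := by rw [h]; ring
    rw [path, e, e2, e3]
    simp

theorem continuous_path (p : ℤ → P) : Continuous (path p) := by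
  have hlf : LocallyFinite fun k : ℤ => Set.Icc (k : ℝ) (k + 1) := by
    intro x
    refine ⟨Metric.ball x 1, Metric.ball_mem_nhds x one_pos, ?_⟩
    apply (Set.finite_Icc (⌊x⌋ - 3) (⌊x⌋ + 3)).subset
    rintro k ⟨z, ⟨h1, h2⟩, h3⟩
    rw [Metric.mem_ball, Real.dist_eq, abs_lt] at h3
    have f1 := Int.floor_le x
    have f2 := Int.lt_floor_add_one x
    constructor
    · have : ((⌊x⌋ - 3 : ℤ) : ℝ) ≤ k := by push_cast; linarith
      exact_mod_cast this
    · have : (k : ℝ) ≤ ((⌊x⌋ + 3 : ℤ) : ℝ) := by push_cast; linarith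
      exact_mod_cast this
  apply hlf.continuous
  · rw [Set.eq_univ_iff_forall]
    intro x
    rw [Set.mem_iUnion]
    exact ⟨⌊x⌋, Int.floor_le x, (Int.lt_floor_add_one x).le⟩
  · intro k
    exact isClosed_Icc
  · intro k
    have h : ContinuousOn (fun t : ℝ => p k + (t - k) • (p (k + 1) - p k))
        (Set.Icc (k : ℝ) (k + 1)) := by
      apply Continuous.continuousOn
      fun_prop
    apply h.congr
    intro t ht
    exact path_eq p k t ht.1 ht.2

theorem isProperMap_path (p : ℤ → P) (C : ℝ) (hC : ∀ k, dist (p k) (p (k + 1)) ≤ C)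
    (hfin : ∀ R : ℝ, {k : ℤ | ‖p k‖ ≤ R}.Finite) : IsProperMap (path p) := by
  rw [isProperMap_iff_isCompact_preimage]
  refine ⟨continuous_path p, ?_⟩
  intro K hK
  obtain ⟨R, hR⟩ := hK.isBounded.exists_norm_le
  have hfin' := hfin (R + C)
  have hcomp : IsCompact (⋃ k ∈ {k : ℤ | ‖p k‖ ≤ R + C}, Set.Icc (k : ℝ) (k + 1)) :=
    hfin'.isCompact_biUnion fun k _ => isCompact_Icc
  apply hcomp.of_isClosed_subset (hK.isClosed.preimage (continuous_path p))
  intro t ht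
  have h1 : ‖path p t‖ ≤ R := hR _ ht
  rw [Set.mem_iUnion₂]
  refine ⟨⌊t⌋, ?_, Int.floor_le t, (Int.lt_floor_add_one t).le⟩
  change ‖p ⌊t⌋‖ ≤ R + C
  have h2 : p ⌊t⌋ = path p t - Int.fract t • (p (⌊t⌋ + 1) - p ⌊t⌋) := by
    rw [path]; abel
  have h3 : ‖Int.fract t • (p (⌊t⌋ + 1) - p ⌊t⌋)‖ ≤ C := by
    rw [norm_smul, Real.norm_eq_abs, abs_of_nonneg (Int.fract_nonneg t)]
    have h4 : ‖p (⌊t⌋ + 1) - p ⌊t⌋‖ ≤ C := by
      have := hC ⌊t⌋
      rw [dist_comm, dist_eq_norm] at this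
      exact this
    have h5 : 0 ≤ ‖p (⌊t⌋ + 1) - p ⌊t⌋‖ := norm_nonneg _
    have h6 := (Int.fract_lt_one t).le
    have h7 := Int.fract_nonneg t
    nlinarith
  rw [h2]
  exact (norm_sub_le _ _).trans (add_le_add h1 h3)

theorem isClosedEmbedding_path {X : Type*} [TopologicalSpace X] (g : X → ℝ)
    (hg : Topology.IsClosedEmbedding g) (p : ℤ → P) (C : ℝ)
    (hC : ∀ k, dist (p k) (p (k + 1)) ≤ C)
    (hfin : ∀ R : ℝ, {k : ℤ | ‖p k‖ ≤ R}.Finite) (hinj : Function.Injective (path p ∘ g)) :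
    Topology.IsClosedEmbedding (path p ∘ g) :=
  Topology.IsClosedEmbedding.of_continuous_injective_isClosedMap
    ((continuous_path p).comp hg.continuous) hinj
    (((isProperMap_path p C hC hfin).comp hg.isProperMap).isClosedMap)

/-- The range of the curve. -/
theorem range_path (p : ℤ → P) : Set.range (path p) =
    ⋃ k : ℤ, (fun τ : ℝ => p k + τ • (p (k + 1) - p k)) '' Set.Icc 0 1 := by
  apply Set.Subset.antisymm
  · rintro _ ⟨t, rfl⟩
    rw [Set.mem_iUnion]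
    exact ⟨⌊t⌋, Int.fract t, ⟨Int.fract_nonneg t, (Int.fract_lt_one t).le⟩, rfl⟩
  · apply Set.iUnion_subset
    rintro k _ ⟨τ, ⟨h0, h1⟩, rfl⟩
    refine ⟨k + τ, ?_⟩
    rw [path_eq p k (k + τ) (by linarith) (by linarith)]
    simp

/-- The range of the curve starting at `p 0`. -/
theorem range_path_Ici (p : ℤ → P) :
    Set.range (path p ∘ (Subtype.val : Set.Ici (0 : ℝ) → ℝ)) =
    ⋃ n : ℕ, (fun τ : ℝ => p n + τ • (p (n + 1) - p n)) '' Set.Icc 0 1 := by
  apply Set.Subset.antisymm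
  · rintro _ ⟨⟨t, ht⟩, rfl⟩
    have ht0 : (0 : ℝ) ≤ t := ht
    rw [Set.mem_iUnion]
    refine ⟨⌊t⌋.toNat, Int.fract t, ⟨Int.fract_nonneg t, (Int.fract_lt_one t).le⟩, ?_⟩
    have e : ((⌊t⌋.toNat : ℕ) : ℤ) = ⌊t⌋ := Int.toNat_of_nonneg (Int.floor_nonneg.2 ht0)
    simp only [e]
    rfl
  · apply Set.iUnion_subset
    rintro n _ ⟨τ, ⟨h0, h1⟩, rfl⟩
    have hn : (0 : ℝ) ≤ n := Nat.cast_nonneg n
    refine ⟨⟨n + τ, by change (0 : ℝ) ≤ n + τ; linarith⟩, ?_⟩
    change path p (n + τ) = _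
    rw [path_eq p n (n + τ) (by push_cast; linarith) (by push_cast; linarith)]
    simp

end Pool.Agent.V11157.Polyline
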