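import Mathlib

/-!
# The square spiral through the integer lattice
-/

set_option autoImplicit false

namespace Pool.Agent.V11157.Spiral

/-- bottom cone: the spiral moves right -/
def Bot (v : ℤ × ℤ) : Prop := v.2 ≤ 0 ∧ v.2 ≤ v.1 ∧ v.1 ≤ -v.2
/-- right cone: the spiral moves up -/
def Rig (v : ℤ × ℤ) : Prop := 0 < v.1 ∧ -v.1 < v.2 ∧ v.2 < v.1
/-- top cone: the spiral moves left -/
def Top (v : ℤ × ℤ) : Prop := 0 < v.2 ∧ -v.2 < v.1 ∧ v.1 ≤ v.2
/-- left cone: the spiral moves down -/
def Lef (v : ℤ × ℤ) : Prop := v.1 < 0 ∧ v.1 < v.2 ∧ v.2 ≤ -v.1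

instance (v : ℤ × ℤ) : Decidable (Bot v) := by unfold Bot; infer_instance
instance (v : ℤ × ℤ) : Decidable (Rig v) := by unfold Rig; infer_instance
instance (v : ℤ × ℤ) : Decidable (Top v) := by unfold Top; infer_instance
instance (v : ℤ × ℤ) : Decidable (Lef v) := by unfold Lef; infer_instance

theorem cases (v : ℤ × ℤ) : Bot v ∨ Rig v ∨ Top v ∨ Lef v := by
  unfold Bot Rig Top Lef
  omega

/-- The next point of the spiral. -/
def next (v : ℤ × ℤ) : ℤ × ℤ :=
  if Bot v then (v.1 + 1, v.2)
  else if Rig v then (v.1, v.2 + 1)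
  else if Top v then (v.1 - 1, v.2)
  else (v.1, v.2 - 1)

theorem next_bot {v : ℤ × ℤ} (h : Bot v) : next v = (v.1 + 1, v.2) := by
  rw [next, if_pos h]

theorem next_rig {v : ℤ × ℤ} (h : Rig v) : next v = (v.1, v.2 + 1) := by
  have h1 : ¬ Bot v := by unfold Bot Rig at *; omega
  rw [next, if_neg h1, if_pos h]

theorem next_top {v : ℤ × ℤ} (h : Top v) : next v = (v.1 - 1, v.2) := by
  have h1 : ¬ Bot v := by unfold Bot Top at *; omega
  have h2 : ¬ Rig v := by unfold Rig Top at *; omega
  rw [next, if_neg h1, if_neg h2, if_pos h]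

theorem next_lef {v : ℤ × ℤ} (h : Lef v) : next v = (v.1, v.2 - 1) := by
  have h1 : ¬ Bot v := by unfold Bot Lef at *; omega
  have h2 : ¬ Rig v := by unfold Rig Lef at *; omega
  have h3 : ¬ Top v := by unfold Top Lef at *; omega
  rw [next, if_neg h1, if_neg h2, if_neg h3]

/-- The number of a point on the spiral. -/
def rank (v : ℤ × ℤ) : ℤ :=
  if Bot v then 4 * v.2 ^ 2 - 3 * v.2 + v.1
  else if Rig v then 4 * v.1 ^ 2 - 3 * v.1 + v.2
  else if Top v then 4 * v.2 ^ 2 - v.2 - v.1
  else 4 * v.1 ^ 2 - v.1 - v.2

theorem rank_bot {v : ℤ × ℤ} (h : Bot v) : rank v = 4 * v.2 ^ 2 - 3 * v.2 + v.1 := by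
  rw [rank, if_pos h]

theorem rank_rig {v : ℤ × ℤ} (h : Rig v) : rank v = 4 * v.1 ^ 2 - 3 * v.1 + v.2 := by
  have h1 : ¬ Bot v := by unfold Bot Rig at *; omega
  rw [rank, if_neg h1, if_pos h]

theorem rank_top {v : ℤ × ℤ} (h : Top v) : rank v = 4 * v.2 ^ 2 - v.2 - v.1 := by
  have h1 : ¬ Bot v := by unfold Bot Top at *; omega
  have h2 : ¬ Rig v := by unfold Rig Top at *; omega
  rw [rank, if_neg h1, if_neg h2, if_pos h]

theorem rank_lef {v : ℤ × ℤ} (h : Lef v) : rank v = 4 * v.1 ^ 2 - v.1 - v.2 := by
  have h1 : ¬ Bot v := by unfold Bot Lef at *; omega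
  have h2 : ¬ Rig v := by unfold Rig Lef at *; omega
  have h3 : ¬ Top v := by unfold Top Lef at *; omega
  rw [rank, if_neg h1, if_neg h2, if_neg h3]

theorem rank_next (v : ℤ × ℤ) : rank (next v) = rank v + 1 := by
  obtain ⟨x, y⟩ := v
  rcases cases (x, y) with h | h | h | h
  · rw [next_bot h, rank_bot h]
    unfold Bot at h
    simp only at h ⊢
    by_cases hx : x = -y
    · have h2 : Rig (x + 1, y) := by unfold Rig; simp only; omega
      rw [rank_rig h2]
      simp only
      subst hx
      ring
    · have h2 : Bot (x + 1, y) := by unfold Bot; simp only; omega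
      rw [rank_bot h2]
      simp only
      ring
  · rw [next_rig h, rank_rig h]
    unfold Rig at h
    simp only at h ⊢
    by_cases hx : x = y + 1
    · have h2 : Top (x, y + 1) := by unfold Top; simp only; omega
      rw [rank_top h2]
      simp only
      subst hx
      ring
    · have h2 : Rig (x, y + 1) := by unfold Rig; simp only; omega
      rw [rank_rig h2]
      simp only
      ring
  · rw [next_top h, rank_top h]
    unfold Top at h
    simp only at h ⊢
    by_cases hx : x - 1 = -y
    · have h2 : Lef (x - 1, y) := by unfold Lef; simp only; omega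
      rw [rank_lef h2]
      simp only
      obtain rfl : x = 1 - y := by omega
      ring
    · have h2 : Top (x - 1, y) := by unfold Top; simp only; omega
      rw [rank_top h2]
      simp only
      ring
  · rw [next_lef h, rank_lef h]
    unfold Lef at h
    simp only at h ⊢
    by_cases hx : y - 1 = x
    · have h2 : Bot (x, y - 1) := by unfold Bot; simp only; omega
      rw [rank_bot h2]
      simp only
      obtain rfl : y = x + 1 := by omega
      ring
    · have h2 : Lef (x, y - 1) := by unfold Lef; simp only; omega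
      rw [rank_lef h2]
      simp only
      ring

/-- Every point except the origin has a predecessor. -/
theorem exists_prev (v : ℤ × ℤ) (hv : v ≠ (0, 0)) : ∃ u, next u = v := by
  obtain ⟨x, y⟩ := v
  have hv' : ¬ (x = 0 ∧ y = 0) := fun h => hv (by rw [h.1, h.2])
  rcases cases (x, y) with h | h | h | h
  · unfold Bot at h
    simp only at h
    by_cases hx : x = y
    · have h2 : Lef (x, y + 1) := by unfold Lef; simp only; omega
      exact ⟨_, by rw [next_lef h2]; simp⟩
    · have h2 : Bot (x - 1, y) := by unfold Bot; simp only; omega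
      exact ⟨_, by rw [next_bot h2]; simp⟩
  · unfold Rig at h
    simp only at h
    by_cases hx : y - 1 = -x
    · have h2 : Bot (x - 1, y) := by unfold Bot; simp only; omega
      exact ⟨_, by rw [next_bot h2]; simp⟩
    · have h2 : Rig (x, y - 1) := by unfold Rig; simp only; omega
      exact ⟨_, by rw [next_rig h2]; simp⟩
  · unfold Top at h
    simp only at h
    by_cases hx : x = y
    · have h2 : Rig (x, y - 1) := by unfold Rig; simp only; omega
      exact ⟨_, by rw [next_rig h2]; simp⟩
    · have h2 : Top (x + 1, y) := by unfold Top; simp only; omega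
      exact ⟨_, by rw [next_top h2]; simp⟩
  · unfold Lef at h
    simp only at h
    by_cases hx : y = -x
    · have h2 : Top (x + 1, y) := by unfold Top; simp only; omega
      exact ⟨_, by rw [next_top h2]; simp⟩
    · have h2 : Lef (x, y + 1) := by unfold Lef; simp only; omega
      exact ⟨_, by rw [next_lef h2]; simp⟩

theorem rank_nonneg (v : ℤ × ℤ) : 0 ≤ rank v := by
  obtain ⟨x, y⟩ := v
  rcases cases (x, y) with h | h | h | h
  · rw [rank_bot h]; unfold Bot at h; simp only at h ⊢; nlinarith
  · rw [rank_rig h]; unfold Rig at h; simp only at h ⊢; nlinarith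
  · rw [rank_top h]; unfold Top at h; simp only at h ⊢; nlinarith
  · rw [rank_lef h]; unfold Lef at h; simp only at h ⊢; nlinarith

/-- The spiral. -/
def v : ℕ → ℤ × ℤ
  | 0 => (0, 0)
  | n + 1 => next (v n)

theorem rank_v (n : ℕ) : rank (v n) = n := by
  induction n with
  | zero =>
    have h : Bot (0, 0) := by unfold Bot; simp
    change rank (0, 0) = 0
    rw [rank_bot h]
    rfl
  | succ n ih =>
    change rank (next (v n)) = _
    rw [rank_next, ih]
    push_cast
    rfl

theorem v_injective : Function.Injective v := by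
  intro a b h
  have h1 := rank_v a
  have h2 := rank_v b
  rw [h, h2] at h1
  exact_mod_cast h1.symm

theorem v_surj_aux (n : ℕ) : ∀ u : ℤ × ℤ, rank u = n → v n = u := by
  induction n with
  | zero =>
    intro u hu
    by_contra hne
    obtain ⟨w, hw⟩ := exists_prev u (fun h => hne h.symm)
    have h1 := rank_next w
    rw [hw, hu] at h1
    have h2 := rank_nonneg w
    push_cast at h1
    omega
  | succ n ih =>
    intro u hu
    have hne : u ≠ (0, 0) := by
      rintro rfl
      have := rank_v 0
      change rank (0, 0) = _ at this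
      rw [this] at hu
      push_cast at hu
      omega
    obtain ⟨w, hw⟩ := exists_prev u hne
    have h1 := rank_next w
    rw [hw, hu] at h1
    have h2 : v n = w := ih w (by push_cast at h1; omega)
    change next (v n) = u
    rw [h2, hw]

theorem v_surjective : Function.Surjective v := by
  intro u
  refine ⟨(rank u).toNat, v_surj_aux _ u ?_⟩
  rw [Int.toNat_of_nonneg (rank_nonneg u)]

end Pool.Agent.V11157.Spiral
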