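import Mathlib

/-!
# A one-orbit permutation for the hexagonal tiling

Hexagons are indexed by `(h0, h1)` (the third coordinate is `-h0 - h1`), the vertices of one of the two
classes by `(x, y)` (the third coordinate is `1 - x - y`), each with three edges.
-/

set_option autoImplicit false

namespace Pool.Agent.V11157.HexSpiral

/-- The open hexagons: two interleaved half-families of concentric hexagonal rings. -/
def O (h0 h1 : ℤ) : Prop :=
  (0 ≤ h1 ∧ ((0 ≤ h0 ∧ (h0 + h1) % 2 = 0) ∨ (h0 < 0 ∧ h0 + h1 ≤ 0 ∧ h0 % 2 = 0) ∨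
    (h0 < 0 ∧ 0 < h0 + h1 ∧ h1 % 2 = 0))) ∨
  (h1 < 0 ∧ ((h0 ≤ 1 ∧ (h0 + h1) % 2 = 0) ∨ (1 < h0 ∧ 1 ≤ h0 + h1 ∧ h0 % 2 = 0) ∨
    (1 < h0 ∧ h0 + h1 < 1 ∧ h1 % 2 = 1)))

instance (h0 h1 : ℤ) : Decidable (O h0 h1) := by unfold O; infer_instance

/-- Twice the position on the curve of the edge number 0 of the vertex. -/
def r0 (x y : ℤ) : ℤ :=
  if 1 ≤ y then
    if x + y ≤ 0 then
      if x % 2 = 0 then -9 * x ^ 2 + x + 8 * y - 4 else -9 * x ^ 2 + 19 * x + 8 * y - 10
    else if 1 ≤ x then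
      if (x + y) % 2 = 1 then 9 * (x + y) ^ 2 - 17 * x - 13 * y + 8
      else -9 * (x + y) ^ 2 + 19 * x + 11 * y - 4
    else
      if y % 2 = 0 then -9 * y ^ 2 + 4 * x + 11 * y - 4 else 9 * y ^ 2 - 8 * x - 13 * y + 8
  else
    if 2 ≤ x + y then
      if x % 2 = 1 then 9 * x ^ 2 - 17 * x + 8 * y + 8 else 9 * x ^ 2 + x + 8 * y - 4
    else if x ≤ 1 then
      if (x + y) % 2 = 0 then 9 * (x + y) ^ 2 - 17 * x - 25 * y + 14
      else -9 * (x + y) ^ 2 + 19 * x + 23 * y - 10
    else
      if y % 2 = 0 then -9 * y ^ 2 - 8 * x + 5 * y + 8 else 9 * y ^ 2 + 4 * x - 7 * y + 2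

/-- Twice the position on the curve of the edge number 1 of the vertex. -/
def r1 (x y : ℤ) : ℤ :=
  if 1 ≤ y then
    if x + y ≤ 0 then
      if x % 2 = 0 then 9 * x ^ 2 - 17 * x - 4 * y + 10 else -9 * x ^ 2 + 19 * x + 8 * y - 8
    else if 1 ≤ x then
      if (x + y) % 2 = 1 then 9 * (x + y) ^ 2 - 17 * x - 13 * y + 10
      else -9 * (x + y) ^ 2 + 19 * x + 11 * y - 8
    else
      if y % 2 = 0 then 9 * y ^ 2 - 8 * x + 5 * y + 10 else 9 * y ^ 2 - 8 * x - 13 * y + 10
  else
    if 2 ≤ x + y then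
      if x % 2 = 1 then 9 * x ^ 2 - 17 * x + 8 * y + 10 else -9 * x ^ 2 + 19 * x - 4 * y - 8
    else if x ≤ 1 then
      if (x + y) % 2 = 0 then 9 * (x + y) ^ 2 - 17 * x - 25 * y + 10
      else -9 * (x + y) ^ 2 + 19 * x + 23 * y - 8
    else
      if y % 2 = 0 then -9 * y ^ 2 - 8 * x + 5 * y + 10 else -9 * y ^ 2 - 8 * x - 13 * y + 10

/-- Twice the position on the curve of the edge number 2 of the vertex. -/
def r2 (x y : ℤ) : ℤ :=
  if 1 ≤ y then
    if x + y ≤ 0 then
      if x % 2 = 0 then 9 * x ^ 2 - 17 * x - 4 * y + 12 else -9 * x ^ 2 + 19 * x + 8 * y - 12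
    else if 1 ≤ x then
      if (x + y) % 2 = 1 then -9 * (x + y) ^ 2 + 37 * x + 29 * y - 30
      else -9 * (x + y) ^ 2 + 19 * x + 11 * y - 6
    else
      if y % 2 = 0 then -9 * y ^ 2 + 4 * x + 11 * y - 6 else 9 * y ^ 2 - 8 * x - 13 * y + 12
  else
    if 2 ≤ x + y then
      if x % 2 = 1 then 9 * x ^ 2 - 17 * x + 8 * y + 6 else -9 * x ^ 2 + 19 * x - 4 * y - 6
    else if x ≤ 1 then
      if (x + y) % 2 = 0 then 9 * (x + y) ^ 2 - 17 * x - 25 * y + 12
      else 9 * (x + y) ^ 2 - 35 * x - 43 * y + 42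
    else
      if y % 2 = 0 then -9 * y ^ 2 - 8 * x + 5 * y + 12 else 9 * y ^ 2 + 4 * x - 7 * y

theorem step0c {x y : ℤ} (h : ¬ O x y) : r1 x y = r0 x y + 2 := by
  unfold O at h
  unfold r0 r1
  split_ifs <;> first
    | (exfalso; omega)
    | ring1

theorem step1c {x y : ℤ} (h : ¬ O (x - 1) y) : r2 x y = r1 x y + 2 := by
  unfold O at h
  unfold r1 r2
  split_ifs <;> first
    | (exfalso; omega)
    | ring1

theorem step2c {x y : ℤ} (h : ¬ O x (y - 1)) : r0 x y = r2 x y + 2 := by
  unfold O at h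
  unfold r0 r2
  split_ifs <;> first
    | (exfalso; omega)
    | ring1

theorem step0o {x y : ℤ} (h : O x y) : r2 (x + 1) y = r0 x y + 2 := by
  unfold O at h
  unfold r0 r2
  split_ifs <;> first
    | (exfalso; omega)
    | ring1
    | (obtain rfl : y = 1 - x := by omega
       ring1)
    | (obtain rfl : x = 1 := by omega
       ring1)
    | (obtain rfl : y = -x := by omega
       ring1)
    | (obtain rfl : x = 0 := by omega
       ring1)

theorem step1o {x y : ℤ} (h : O (x - 1) y) : r0 (x - 1) (y + 1) = r1 x y + 2 := by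
  unfold O at h
  unfold r0 r1
  split_ifs <;> first
    | (exfalso; omega)
    | ring1
    | (obtain rfl : y = 0 := by omega
       ring1)
    | (obtain rfl : x = 2 := by omega
       ring1)
    | (obtain rfl : x = 1 := by omega
       ring1)
    | (obtain rfl : x = 1 := by omega
       obtain rfl : y = 0 := by omega
       ring1)

theorem step2o {x y : ℤ} (h : O x (y - 1)) : r1 x (y - 1) = r2 x y + 2 := by
  unfold O at h
  unfold r1 r2
  split_ifs <;> first
    | (exfalso; omega)
    | ring1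
    | (obtain rfl : y = 2 - x := by omega
       ring1)
    | (obtain rfl : y = 1 := by omega
       ring1)
    | (obtain rfl : y = 1 - x := by omega
       ring1)
    | (obtain rfl : x = 0 := by omega
       obtain rfl : y = 1 := by omega
       ring1)

theorem zero0 {x y : ℤ} (h0 : 0 ≤ r0 x y) (h1 : r0 x y ≤ 1) : x = 1 ∧ y = 0 := by
  unfold r0 at h0 h1
  split_ifs at h0 h1 with a b c c d e f g k l l
  · exfalso; nlinarith
  · exfalso; nlinarith
  · exfalso; nlinarith
  · exfalso; nlinarith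
  · exfalso; nlinarith
  · exfalso; nlinarith
  · exfalso; nlinarith
  · exfalso; nlinarith
  · exfalso; nlinarith
  · have h2 : 1 ≤ x + y := by
      by_contra hc
      have h3 : x + y ≤ 0 := by omega
      nlinarith
    have h3 : x = 1 - y := by omega
    subst h3
    have h4 : -9 * (1 - y + y) ^ 2 + 19 * (1 - y) + 23 * y - 10 = 4 * y := by ring
    rw [h4] at h0 h1
    omega
  · exfalso; nlinarith
  · exfalso; nlinarith

theorem zero1 {x y : ℤ} (h0 : 0 ≤ r1 x y) (h1 : r1 x y ≤ 1) : False := by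
  unfold r1 at h0 h1
  split_ifs at h0 h1 with a b c c d e f g k l l
  · nlinarith
  · nlinarith
  · nlinarith
  · nlinarith
  · nlinarith
  · nlinarith
  · nlinarith
  · nlinarith
  · nlinarith
  · have h2 : 1 ≤ x + y := by
      by_contra hc
      have h3 : x + y ≤ 0 := by omega
      nlinarith
    have h3 : x = 1 - y := by omega
    subst h3
    have h4 : -9 * (1 - y + y) ^ 2 + 19 * (1 - y) + 23 * y - 8 = 4 * y + 2 := by ring
    rw [h4] at h0 h1
    omega
  · nlinarith
  · nlinarith

theorem zero2 {x y : ℤ} (h0 : 0 ≤ r2 x y) (h1 : r2 x y ≤ 1) : False := by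
  unfold r2 at h0 h1
  split_ifs at h0 h1 with a b c c d e f g k l l
  · nlinarith
  · nlinarith
  · have h3 : 3 ≤ x + y := by omega
    nlinarith
  · nlinarith
  · nlinarith
  · nlinarith
  · nlinarith
  · nlinarith
  · nlinarith
  · nlinarith
  · nlinarith
  · nlinarith

/-! ### The permutation -/

/-- The edges: a vertex and a direction. -/
abbrev E : Type := (ℤ × ℤ) × Fin 3

/-- The next edge crossed by the curve. -/
def Sf (x : E) : E :=
  match x with
  | ((a, b), 0) => if O a b then ((a + 1, b), 2) else ((a, b), 1)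
  | ((a, b), 1) => if O (a - 1) b then ((a - 1, b + 1), 0) else ((a, b), 2)
  | ((a, b), 2) => if O a (b - 1) then ((a, b - 1), 1) else ((a, b), 0)

/-- The previous edge crossed by the curve. -/
def Tf (x : E) : E :=
  match x with
  | ((a, b), 0) => if O a (b - 1) then ((a + 1, b - 1), 1) else ((a, b), 2)
  | ((a, b), 1) => if O a b then ((a, b + 1), 2) else ((a, b), 0)
  | ((a, b), 2) => if O (a - 1) b then ((a - 1, b), 0) else ((a, b), 1)

theorem Tf_Sf (x : E) : Tf (Sf x) = x := by
  obtain ⟨⟨a, b⟩, d⟩ := x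
  fin_cases d
  · change Tf (if O a b then ((a + 1, b), 2) else ((a, b), 1)) = ((a, b), 0)
    split_ifs with h
    · change (if O (a + 1 - 1) b then ((a + 1 - 1, b), 0) else ((a + 1, b), 1)) = _
      simp [h]
    · change (if O a b then ((a, b + 1), 2) else ((a, b), 0)) = _
      rw [if_neg h]
  · change Tf (if O (a - 1) b then ((a - 1, b + 1), 0) else ((a, b), 2)) = ((a, b), 1)
    split_ifs with h
    · change (if O (a - 1) (b + 1 - 1) then ((a - 1 + 1, b + 1 - 1), 1) else ((a - 1, b + 1), 2)) = _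
      simp [h]
    · change (if O (a - 1) b then ((a - 1, b), 0) else ((a, b), 1)) = _
      rw [if_neg h]
  · change Tf (if O a (b - 1) then ((a, b - 1), 1) else ((a, b), 0)) = ((a, b), 2)
    split_ifs with h
    · change (if O a (b - 1) then ((a, b - 1 + 1), 2) else ((a, b - 1), 0)) = _
      simp [h]
    · change (if O a (b - 1) then ((a + 1, b - 1), 1) else ((a, b), 2)) = _
      rw [if_neg h]

theorem Sf_Tf (x : E) : Sf (Tf x) = x := by
  obtain ⟨⟨a, b⟩, d⟩ := x
  fin_cases d
  · change Sf (if O a (b - 1) then ((a + 1, b - 1), 1) else ((a, b), 2)) = ((a, b), 0)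
    split_ifs with h
    · change (if O (a + 1 - 1) (b - 1) then ((a + 1 - 1, b - 1 + 1), 0) else ((a + 1, b - 1), 2)) = _
      simp [h]
    · change (if O a (b - 1) then ((a, b - 1), 1) else ((a, b), 0)) = _
      rw [if_neg h]
  · change Sf (if O a b then ((a, b + 1), 2) else ((a, b), 0)) = ((a, b), 1)
    split_ifs with h
    · change (if O a (b + 1 - 1) then ((a, b + 1 - 1), 1) else ((a, b + 1), 0)) = _
      simp [h]
    · change (if O a b then ((a + 1, b), 2) else ((a, b), 1)) = _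
      rw [if_neg h]
  · change Sf (if O (a - 1) b then ((a - 1, b), 0) else ((a, b), 1)) = ((a, b), 2)
    split_ifs with h
    · change (if O (a - 1) b then ((a - 1 + 1, b), 2) else ((a - 1, b), 1)) = _
      simp [h]
    · change (if O (a - 1) b then ((a - 1, b + 1), 0) else ((a, b), 2)) = _
      rw [if_neg h]

/-- The permutation of the edges. -/
def S : Equiv.Perm E := ⟨Sf, Tf, Tf_Sf, Sf_Tf⟩

/-- Twice the position on the curve. -/
def rk (x : E) : ℤ :=
  match x with
  | ((a, b), 0) => r0 a b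
  | ((a, b), 1) => r1 a b
  | ((a, b), 2) => r2 a b

theorem rk_S (x : E) : rk (S x) = rk x + 2 := by
  obtain ⟨⟨a, b⟩, d⟩ := x
  fin_cases d
  · change rk (if O a b then ((a + 1, b), 2) else ((a, b), 1)) = r0 a b + 2
    split_ifs with h
    · exact step0o h
    · exact step0c h
  · change rk (if O (a - 1) b then ((a - 1, b + 1), 0) else ((a, b), 2)) = r1 a b + 2
    split_ifs with h
    · exact step1o h
    · exact step1c h
  · change rk (if O a (b - 1) then ((a, b - 1), 1) else ((a, b), 0)) = r2 a b + 2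
    split_ifs with h
    · exact step2o h
    · exact step2c h

theorem rk_zpow (k : ℤ) (x : E) : rk ((S ^ k) x) = rk x + 2 * k := by
  induction k with
  | zero => simp
  | succ n ih =>
    rw [add_comm, zpow_add, zpow_one, Equiv.Perm.mul_apply, rk_S, ih]
    ring
  | pred n ih =>
    have h := rk_S ((S ^ (-(n : ℤ) - 1)) x)
    rw [← Equiv.Perm.mul_apply, ← zpow_one_add, add_sub_cancel, ih] at h
    linarith

theorem rk_zero {x : E} (h0 : 0 ≤ rk x) (h1 : rk x ≤ 1) : x = ((1, 0), 0) := by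
  obtain ⟨⟨a, b⟩, d⟩ := x
  fin_cases d
  · obtain ⟨rfl, rfl⟩ := zero0 h0 h1
    rfl
  · exact (zero1 h0 h1).elim
  · exact (zero2 h0 h1).elim

/-- The edges in the order in which the curve crosses them. -/
def ε (k : ℤ) : E := (S ^ k) ((1, 0), 0)

theorem ε_succ (k : ℤ) : ε (k + 1) = S (ε k) := by
  rw [ε, ε, add_comm, zpow_add, zpow_one, Equiv.Perm.mul_apply]

theorem rk_ε (k : ℤ) : rk (ε k) = 2 * k := by
  rw [ε, rk_zpow]
  change r0 1 0 + 2 * k = 2 * k
  have : r0 1 0 = 0 := by decide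
  rw [this, zero_add]

theorem ε_inj : Function.Injective ε := by
  intro a b h
  have h1 := rk_ε a
  rw [h, rk_ε] at h1
  linarith

theorem ε_surj (x : E) : ∃ k, ε k = x := by
  refine ⟨rk x / 2, ?_⟩
  have h1 : (S ^ (-(rk x / 2))) x = ((1, 0), 0) := by
    apply rk_zero
    · rw [rk_zpow]
      have := Int.emod_add_mul_ediv (rk x) 2
      have := Int.emod_nonneg (rk x) (two_ne_zero)
      linarith
    · rw [rk_zpow]
      have := Int.emod_add_mul_ediv (rk x) 2
      have := Int.emod_lt_of_pos (rk x) (zero_lt_two)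
      linarith
  rw [ε, ← h1, ← Equiv.Perm.mul_apply, ← zpow_add, add_neg_cancel, zpow_zero]
  rfl

end Pool.Agent.V11157.HexSpiral
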