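import Mathlib

/-!
# An aperiodic set of Wang tiles (after Kari)

A tile is a quintuple `(D, b, t, l, r)` with `D ∈ {1, 3}`, bottom and top labels `b, t ∈ {1, 2, 3}` and
left and right labels `l, r ∈ {-1, 0, 1, 2}` such that `2 b + l = D t + r`: a row of tiles multiplies the
average of its bottom labels by `2 / D`.  The valid arrangements of these tiles exist, and none of them has
a nonzero period.
-/

set_option autoImplicit false

namespace Pool.Agent.V11157.Kari

/-- A Wang tile. -/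
structure Tile where
  D : ℤ
  b : ℤ
  t : ℤ
  l : ℤ
  r : ℤ
  hD : D = 1 ∨ D = 3
  hb : 1 ≤ b ∧ b ≤ 3
  ht : 1 ≤ t ∧ t ≤ 3
  hl : -1 ≤ l ∧ l ≤ 2
  hr : -1 ≤ r ∧ r ≤ 2
  eq : 2 * b + l = D * t + r

theorem Tile.ext' {x y : Tile} (h1 : x.D = y.D) (h2 : x.b = y.b) (h3 : x.t = y.t) (h4 : x.l = y.l)
    (h5 : x.r = y.r) : x = y := by
  cases x; cases y; simp_all

/-- There are finitely many tiles. -/
instance : Finite Tile := by
  let f : Tile → Finset.Icc (1 : ℤ) 3 × Finset.Icc (1 : ℤ) 3 × Finset.Icc (1 : ℤ) 3 ×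
      Finset.Icc (-1 : ℤ) 2 × Finset.Icc (-1 : ℤ) 2 := fun x =>
    (⟨x.D, by rw [Finset.mem_Icc]; rcases x.hD with h | h <;> omega⟩,
      ⟨x.b, by rw [Finset.mem_Icc]; exact x.hb⟩, ⟨x.t, by rw [Finset.mem_Icc]; exact x.ht⟩,
      ⟨x.l, by rw [Finset.mem_Icc]; exact x.hl⟩, ⟨x.r, by rw [Finset.mem_Icc]; exact x.hr⟩)
  apply Finite.of_injective f
  intro x y h
  simp only [f, Prod.mk.injEq, Subtype.mk.injEq] at h
  exact Tile.ext' h.1 h.2.1 h.2.2.1 h.2.2.2.1 h.2.2.2.2

/-- Horizontal compatibility: `y` may be placed on the right of `x`. -/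
def H (x y : Tile) : Prop := x.D = y.D ∧ x.r = y.l

/-- Vertical compatibility: `y` may be placed above `x`. -/
def V (x y : Tile) : Prop := x.t = y.b

/-- A valid arrangement of tiles on `ℤ²`. -/
def Valid (w : ℤ → ℤ → Tile) : Prop :=
  (∀ i j, H (w i j) (w (i + 1) j)) ∧ ∀ i j, V (w i j) (w i (j + 1))

/-! ### Existence -/

/-- The exponent of three. -/
noncomputable def m (j : ℤ) : ℤ := Int.log 3 ((2 : ℝ) ^ j)

/-- The average of row `j`. -/
noncomputable def x (j : ℤ) : ℝ := (2 : ℝ) ^ j / 3 ^ (m j)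

theorem x_ge (j : ℤ) : 1 ≤ x j := by
  have h := Int.zpow_log_le_self (b := 3) (r := (2 : ℝ) ^ j) (by norm_num) (by positivity)
  unfold x m
  rw [le_div_iff₀ (by positivity), one_mul]
  exact_mod_cast h

theorem x_lt (j : ℤ) : x j < 3 := by
  have h := Int.lt_zpow_succ_log_self (b := 3) (by norm_num) ((2 : ℝ) ^ j)
  unfold x m
  rw [div_lt_iff₀ (by positivity)]
  rw [zpow_add₀ (by norm_num)] at h
  norm_num at h
  linarith

theorem m_step (j : ℤ) : m (j + 1) = m j ∨ m (j + 1) = m j + 1 := by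
  have h1 := x_ge j
  have h2 := x_lt j
  have h3 := x_ge (j + 1)
  have h4 := x_lt (j + 1)
  have e : x (j + 1) * 3 ^ (m (j + 1)) = 2 * (x j * 3 ^ (m j)) := by
    unfold x
    rw [div_mul_cancel₀ _ (by positivity), div_mul_cancel₀ _ (by positivity), zpow_add₀ (by norm_num)]
    ring
  have p1 : (0 : ℝ) < 3 ^ (m j) := by positivity
  have p2 : (0 : ℝ) < 3 ^ (m (j + 1)) := by positivity
  have k1 : (3 : ℝ) ^ (m (j + 1)) < 3 ^ (m j + 2) := by
    rw [zpow_add₀ (by norm_num)]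
    norm_num
    nlinarith
  have k2 : (3 : ℝ) ^ (m j) < 3 ^ (m (j + 1) + 1) := by
    rw [zpow_add₀ (by norm_num)]
    norm_num
    nlinarith
  have l1 := (zpow_lt_zpow_iff_right₀ (by norm_num : (1 : ℝ) < 3)).1 k1
  have l2 := (zpow_lt_zpow_iff_right₀ (by norm_num : (1 : ℝ) < 3)).1 k2
  omega

/-- The multiplier of row `j`. -/
noncomputable def DD (j : ℤ) : ℤ := if m (j + 1) = m j then 1 else 3

theorem DD_mul (j : ℤ) : (DD j : ℝ) * x (j + 1) = 2 * x j := by
  have p1 : (0 : ℝ) < 3 ^ (m j) := by positivity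
  unfold DD x
  rcases m_step j with h | h
  · rw [if_pos h, h, zpow_add₀ (by norm_num)]
    field_simp
    norm_num
  · rw [if_neg (by omega), h, zpow_add₀ (by norm_num), zpow_add₀ (by norm_num)]
    field_simp
    norm_num

theorem floor_step {y : ℝ} (h1 : 1 ≤ y) (h2 : y < 3) (i : ℤ) :
    1 ≤ ⌊((i + 1 : ℤ) : ℝ) * y⌋ - ⌊(i : ℝ) * y⌋ ∧ ⌊((i + 1 : ℤ) : ℝ) * y⌋ - ⌊(i : ℝ) * y⌋ ≤ 3 := by
  have a1 := Int.floor_le ((i : ℝ) * y)
  have a2 := Int.lt_floor_add_one ((i : ℝ) * y)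
  have a3 := Int.floor_le (((i + 1 : ℤ) : ℝ) * y)
  have a4 := Int.lt_floor_add_one (((i + 1 : ℤ) : ℝ) * y)
  push_cast at a3 a4 ⊢
  constructor
  · have : ((⌊(i : ℝ) * y⌋ : ℤ) : ℝ) < ((⌊((i : ℝ) + 1) * y⌋ + 1 - 0 : ℤ) : ℝ) := by
      push_cast; nlinarith
    have h3 : ((⌊(i : ℝ) * y⌋ + 1 : ℤ) : ℝ) ≤ ((i : ℝ) + 1) * y := by
      push_cast; nlinarith
    have := Int.le_floor.2 h3
    omega
  · have h3 : ((⌊((i : ℝ) + 1) * y⌋ - 3 : ℤ) : ℝ) < ((⌊(i : ℝ) * y⌋ + 1 : ℤ) : ℝ) := by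
      push_cast; nlinarith
    have : ⌊((i : ℝ) + 1) * y⌋ - 3 < ⌊(i : ℝ) * y⌋ + 1 := by exact_mod_cast h3
    omega

/-- The horizontal label. -/
noncomputable def lab (i j : ℤ) : ℤ := 2 * ⌊(i : ℝ) * x j⌋ - DD j * ⌊(i : ℝ) * x (j + 1)⌋

theorem lab_bounds (i j : ℤ) : -1 ≤ lab i j ∧ lab i j ≤ 2 := by
  have a1 := Int.floor_le ((i : ℝ) * x j)
  have a2 := Int.lt_floor_add_one ((i : ℝ) * x j)
  have a3 := Int.floor_le ((i : ℝ) * x (j + 1))
  have a4 := Int.lt_floor_add_one ((i : ℝ) * x (j + 1))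
  have e := DD_mul j
  have e' : (DD j : ℝ) * ((i : ℝ) * x (j + 1)) = 2 * ((i : ℝ) * x j) := by
    linear_combination (i : ℝ) * e
  have hD : DD j = 1 ∨ DD j = 3 := by unfold DD; split_ifs <;> simp
  constructor
  · have : ((-2 : ℤ) : ℝ) < ((lab i j : ℤ) : ℝ) := by
      unfold lab
      push_cast
      rcases hD with h | h <;> rw [h] at e' ⊢ <;> push_cast at e' ⊢ <;> linarith
    have := Int.cast_lt.1 this
    omega
  · have : ((lab i j : ℤ) : ℝ) < ((3 : ℤ) : ℝ) := by
      unfold lab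
      push_cast
      rcases hD with h | h <;> rw [h] at e' ⊢ <;> push_cast at e' ⊢ <;> linarith
    have := Int.cast_lt.1 this
    omega

/-- The arrangement. -/
noncomputable def w₀ (i j : ℤ) : Tile where
  D := DD j
  b := ⌊((i + 1 : ℤ) : ℝ) * x j⌋ - ⌊(i : ℝ) * x j⌋
  t := ⌊((i + 1 : ℤ) : ℝ) * x (j + 1)⌋ - ⌊(i : ℝ) * x (j + 1)⌋
  l := lab i j
  r := lab (i + 1) j
  hD := by unfold DD; split_ifs <;> simp
  hb := floor_step (x_ge j) (x_lt j) i
  ht := floor_step (x_ge (j + 1)) (x_lt (j + 1)) i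
  hl := lab_bounds i j
  hr := lab_bounds (i + 1) j
  eq := by unfold lab; ring

theorem exists_valid : ∃ w, Valid w := by
  refine ⟨w₀, fun i j => ⟨rfl, rfl⟩, fun i j => rfl⟩

/-! ### Aperiodicity -/

variable {w : ℤ → ℤ → Tile} (hw : Valid w)

include hw

theorem D_const (i j : ℤ) : (w i j).D = (w 0 j).D := by
  have h := hw.1
  induction i using Int.induction_on with
  | zero => rfl
  | succ i ih => rw [← (h i j).1, ih]
  | pred i ih =>
    have := (h (-i - 1) j).1
    rw [sub_add_cancel] at this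
    rw [this, ih]

/-- Sum of the bottom labels over a window. -/
def B (w : ℤ → ℤ → Tile) (s j : ℤ) (n : ℕ) : ℤ := ∑ i ∈ Finset.range n, (w (s + i) j).b

theorem row_sum (s j : ℤ) (n : ℕ) :
    2 * B w s j n + (w s j).l = (w 0 j).D * B w s (j + 1) n + (w (s + n) j).l := by
  induction n with
  | zero => simp [B]
  | succ n ih =>
    have e1 : B w s j (n + 1) = B w s j n + (w (s + n) j).b := by
      unfold B; rw [Finset.sum_range_succ]
    have e2 : B w s (j + 1) (n + 1) = B w s (j + 1) n + (w (s + n) (j + 1)).b := by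
      unfold B; rw [Finset.sum_range_succ]
    have h1 := (w (s + n) j).eq
    have h2 : (w (s + n) j).t = (w (s + n) (j + 1)).b := hw.2 (s + n) j
    have h3 : (w (s + n) j).r = (w (s + n + 1) j).l := (hw.1 (s + n) j).2
    have h4 := D_const hw (s + n) j
    rw [e1, e2, ← h2]
    rw [h4, h3] at h1
    push_cast
    rw [← add_assoc s]
    linarith

omit hw in
theorem B_ge (s j : ℤ) (n : ℕ) : (n : ℤ) ≤ B w s j n := by
  induction n with
  | zero => simp [B]
  | succ n ih =>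
    unfold B at ih ⊢
    rw [Finset.sum_range_succ]
    have := (w (s + n) j).hb.1
    push_cast
    linarith

omit hw in
theorem B_le (s j : ℤ) (n : ℕ) : B w s j n ≤ 3 * n := by
  induction n with
  | zero => simp [B]
  | succ n ih =>
    unfold B at ih ⊢
    rw [Finset.sum_range_succ]
    have := (w (s + n) j).hb.2
    push_cast
    linarith

omit hw in
theorem B_shift (s j : ℤ) (n : ℕ) : |B w (s + 1) j n - B w s j n| ≤ 3 := by
  have e1 : B w s j (n + 1) = B w s j n + (w (s + n) j).b := by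
    unfold B; rw [Finset.sum_range_succ]
  have e2 : B w s j (n + 1) = (w s j).b + B w (s + 1) j n := by
    unfold B
    rw [Finset.sum_range_succ', add_comm]
    congr 1
    · simp
    · apply Finset.sum_congr rfl
      intro i _
      push_cast
      ring_nf
  have h1 := (w (s + n) j).hb
  have h2 := (w s j).hb
  rw [abs_le]
  constructor <;> linarith [h1.1, h1.2, h2.1, h2.2]

omit hw in
theorem B_shift' (s j : ℤ) (n : ℕ) : |B w s j n - B w 0 j n| ≤ 3 * |s| := by
  induction s using Int.induction_on with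
  | zero => simp
  | succ i ih =>
    have h := B_shift (w := w) i j n
    have e : |((i : ℤ) + 1)| = |(i : ℤ)| + 1 := by
      rw [abs_of_nonneg (by positivity), abs_of_nonneg (by positivity)]
    rw [e]
    have := abs_le.1 h
    have := abs_le.1 ih
    rw [abs_le]
    constructor <;> linarith
  | pred i ih =>
    have h := B_shift (w := w) (-i - 1) j n
    rw [sub_add_cancel] at h
    have e : |(-(i : ℤ) - 1)| = |(-(i : ℤ))| + 1 := by
      rw [abs_of_nonpos (by omega), abs_of_nonpos (by omega)]; ring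
    rw [e]
    have := abs_le.1 h
    have := abs_le.1 ih
    rw [abs_le]
    constructor <;> linarith

/-- Over `k` rows the sum is multiplied by `2^k / 3^c` up to a bounded error. -/
theorem multi (k : ℕ) : ∃ (c : ℕ) (C : ℤ), ∀ n : ℕ,
    |2 ^ k * B w 0 0 n - 3 ^ c * B w 0 k n| ≤ C := by
  induction k with
  | zero => exact ⟨0, 0, fun n => by simp⟩
  | succ k ih =>
    obtain ⟨c, C, hC⟩ := ih
    have hD := (w 0 k).hD
    have key : ∀ n : ℕ, |2 * B w 0 k n - (w 0 k).D * B w 0 (k + 1) n| ≤ 3 := by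
      intro n
      have h := row_sum hw 0 k n
      have h1 := (w 0 k).hl
      have h2 := (w (0 + n) k).hl
      rw [abs_le]
      constructor <;> linarith [h1.1, h1.2, h2.1, h2.2]
    obtain ⟨c', hc'⟩ : ∃ c' : ℕ, (w 0 k).D = 3 ^ c' := by
      rcases hD with h | h
      · exact ⟨0, by rw [h]; norm_num⟩
      · exact ⟨1, by rw [h]; norm_num⟩
    refine ⟨c + c', 2 * C + 3 ^ c * 3, fun n => ?_⟩
    have h1 := hC n
    have h2 := key n
    rw [hc'] at h2
    have e : (2 : ℤ) ^ (k + 1) * B w 0 0 n - 3 ^ (c + c') * B w 0 ((k + 1 : ℕ) : ℤ) n =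
        2 * (2 ^ k * B w 0 0 n - 3 ^ c * B w 0 k n) +
          3 ^ c * (2 * B w 0 k n - 3 ^ c' * B w 0 (k + 1) n) := by
      push_cast
      ring
    rw [e]
    refine (abs_add_le _ _).trans ?_
    rw [abs_mul, abs_mul]
    have p3 : (0 : ℤ) < 3 ^ c := by positivity
    rw [abs_of_pos (by norm_num : (0 : ℤ) < 2), abs_of_pos p3]
    have := mul_le_mul_of_nonneg_left h2 p3.le
    linarith

theorem no_period_pos {a : ℤ} {k : ℕ} (hk : 0 < k) (hp : ∀ i j, w (i + a) (j + k) = w i j) : False := by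
  obtain ⟨c, C, hC⟩ := multi hw k
  have hB : ∀ n : ℕ, B w 0 k n = B w (-a) 0 n := by
    intro n
    unfold B
    apply Finset.sum_congr rfl
    intro i _
    have := hp (-a + i) 0
    rw [zero_add] at this
    rw [← this]
    congr 2
    ring
  have hne : (2 : ℤ) ^ k ≠ 3 ^ c := by
    intro h
    have h2 : (2 : ℤ) ∣ 3 ^ c := by
      rw [← h]; exact dvd_pow_self 2 hk.ne'
    have h3 : (2 : ℤ) ∣ 3 := Int.prime_two.dvd_of_dvd_pow h2
    omega
  -- the difference is bounded by a constant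
  have key : ∀ n : ℕ, |(2 ^ k - 3 ^ c) * B w 0 0 n| ≤ C + 3 ^ c * (3 * |a|) := by
    intro n
    have h1 := hC n
    rw [hB n] at h1
    have h2 := B_shift' (w := w) (-a) 0 n
    rw [abs_neg] at h2
    have e : (2 ^ k - 3 ^ c) * B w 0 0 n = (2 ^ k * B w 0 0 n - 3 ^ c * B w (-a) 0 n) +
        3 ^ c * (B w (-a) 0 n - B w 0 0 n) := by ring
    rw [e]
    refine (abs_add_le _ _).trans ?_
    rw [abs_mul]
    have p3 : (0 : ℤ) < 3 ^ c := by positivity
    rw [abs_of_pos p3]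
    have := mul_le_mul_of_nonneg_left h2 p3.le
    linarith
  have hC0 : 0 ≤ C + 3 ^ c * (3 * |a|) := (abs_nonneg _).trans (key 0)
  have h1 := key (C + 3 ^ c * (3 * |a|) + 1).toNat
  have h2 := B_ge (w := w) 0 0 (C + 3 ^ c * (3 * |a|) + 1).toNat
  rw [Int.toNat_of_nonneg (by omega)] at h2
  rw [abs_mul] at h1
  have h3 : 1 ≤ |(2 : ℤ) ^ k - 3 ^ c| := Int.one_le_abs (sub_ne_zero.2 hne)
  have h4 := le_abs_self (B w 0 0 (C + 3 ^ c * (3 * |a|) + 1).toNat)
  nlinarith

theorem exact (a : ℕ) (hp : ∀ i j, w (i + a) j = w i j) (k : ℕ) :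
    ∃ c : ℕ, 2 ^ k * B w 0 0 a = 3 ^ c * B w 0 k a := by
  induction k with
  | zero => exact ⟨0, by simp⟩
  | succ k ih =>
    obtain ⟨c, hc⟩ := ih
    obtain ⟨c', hc'⟩ : ∃ c' : ℕ, (w 0 k).D = 3 ^ c' := by
      rcases (w 0 k).hD with h | h
      · exact ⟨0, by rw [h]; norm_num⟩
      · exact ⟨1, by rw [h]; norm_num⟩
    refine ⟨c + c', ?_⟩
    have h := row_sum hw 0 k a
    have := hp 0 k
    rw [this, hc'] at h
    have h' : 2 * B w 0 k a = 3 ^ c' * B w 0 (k + 1) a := by linarith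
    push_cast
    rw [pow_succ, pow_add]
    linear_combination 2 * hc + 3 ^ c * h'

theorem no_period_horizontal {a : ℕ} (ha : 0 < a) (hp : ∀ i j, w (i + a) j = w i j) : False := by
  obtain ⟨c, hc⟩ := exact hw a hp (3 * a)
  have hpos : 0 < B w 0 ((3 * a : ℕ) : ℤ) a := by
    have := B_ge (w := w) 0 ((3 * a : ℕ) : ℤ) a
    have : (0 : ℤ) < a := by exact_mod_cast ha
    linarith
  have hdvd : (2 : ℤ) ^ (3 * a) ∣ B w 0 ((3 * a : ℕ) : ℤ) a := by
    have h1 : (2 : ℤ) ^ (3 * a) ∣ 3 ^ c * B w 0 ((3 * a : ℕ) : ℤ) a := ⟨_, hc.symm⟩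
    exact (IsCoprime.pow (by norm_num : IsCoprime (2 : ℤ) 3)).dvd_of_dvd_mul_left h1
  have h1 := Int.le_of_dvd hpos hdvd
  have h2 := B_le (w := w) 0 ((3 * a : ℕ) : ℤ) a
  have h3 : (3 * a : ℕ) < 2 ^ (3 * a) := Nat.lt_two_pow_self
  have h4 : ((3 * a : ℕ) : ℤ) < 2 ^ (3 * a) := by exact_mod_cast h3
  push_cast at h4
  linarith

/-- No valid arrangement has a nonzero period. -/
theorem no_period {a b : ℤ} (hab : ¬ (a = 0 ∧ b = 0)) (hp : ∀ i j, w (i + a) (j + b) = w i j) :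
    False := by
  have hneg : ∀ i j, w (i + -a) (j + -b) = w i j := by
    intro i j
    have := hp (i + -a) (j + -b)
    rw [← this]
    congr 1 <;> ring
  rcases lt_trichotomy b 0 with h | h | h
  · refine no_period_pos hw (a := -a) (k := (-b).toNat) (by omega) ?_
    intro i j
    rw [Int.toNat_of_nonneg (by omega)]
    exact hneg i j
  · subst h
    have ha : a ≠ 0 := fun h => hab ⟨h, rfl⟩
    rcases lt_or_gt_of_ne ha with h | h
    · refine no_period_horizontal hw (a := (-a).toNat) (by omega) ?_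
      intro i j
      rw [Int.toNat_of_nonneg (by omega)]
      have := hneg i j
      rwa [neg_zero, add_zero] at this
    · refine no_period_horizontal hw (a := a.toNat) (by omega) ?_
      intro i j
      rw [Int.toNat_of_nonneg (by omega)]
      have := hp i j
      rwa [add_zero] at this
  · refine no_period_pos hw (a := a) (k := b.toNat) (by omega) ?_
    intro i j
    rw [Int.toNat_of_nonneg (by omega)]
    exact hp i j

end Pool.Agent.V11157.Kari
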